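import Pool.Agent.TH581.HH.Stm

/-!
The weighted inequality for the coordinate direction `e₀` (STAR).
-/

set_option autoImplicit false

noncomputable section

open MeasureTheory Set
open scoped ENNReal NNReal Topology

namespace Pool.Agent.TH531.HH

open Pool.Agent.TH581.HH

/-- point with first coordinate `t` and the others given by `z` -/
def cs {m : ℕ} (t : ℝ) (z : E m) : E (m + 1) := WithLp.toLp 2 (Fin.cons t (fun i => z i))

/-- height of the hyperplane over `z` -/
def ht {m : ℕ} (ν : E (m + 1)) (b : ℝ) (z : E m) : ℝ := (b - ∑ i, ν i.succ * z i) / ν 0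

lemma hg_eq {m : ℕ} (ν : E (m + 1)) (b : ℝ) (z : E m) : hg ν b z = cs (ht ν b z) z := rfl

lemma cs_zero {m : ℕ} (t : ℝ) (z : E m) : cs t z 0 = t := rfl
lemma cs_succ {m : ℕ} (t : ℝ) (z : E m) (i : Fin m) : cs t z i.succ = z i := rfl
lemma pr_cs {m : ℕ} (t : ℝ) (z : E m) : pr (cs t z) = z := rfl

lemma cs_pr {m : ℕ} (x : E (m + 1)) : cs (x 0) (pr x) = x := by
  ext i
  refine Fin.cases ?_ (fun j => ?_) i
  · rfl
  · rfl

lemma inner_eq {n : ℕ} (x y : E n) : inner ℝ x y = ∑ i, x i * y i := by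
  rw [PiLp.inner_apply]
  refine Finset.sum_congr rfl fun i _ => ?_
  simp [mul_comm]

lemma inner_cs {m : ℕ} (ν : E (m + 1)) (t : ℝ) (z : E m) :
    inner ℝ ν (cs t z) = ν 0 * t + ∑ i, ν i.succ * z i := by
  rw [inner_eq, Fin.sum_univ_succ]
  rfl

lemma cont_cs {m : ℕ} : Continuous (fun p : ℝ × E m => cs p.1 p.2) := by
  refine (PiLp.continuous_toLp 2 _).comp (continuous_pi fun i => ?_)
  refine Fin.cases ?_ (fun j => ?_) i
  · simpa using continuous_fst
  · have : Continuous fun p : ℝ × E m => p.2 j := by fun_prop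
    simpa using this

lemma cont_hg {m : ℕ} (ν : E (m + 1)) (b : ℝ) : Continuous (hg ν b) := by
  have h : Continuous (ht ν b) := by unfold ht; fun_prop
  exact cont_cs.comp (h.prodMk continuous_id)

/-- one dimensional Hermite-Hadamard -/
lemma hh1 {f : ℝ → ℝ} (hf : Continuous f) (h0 : ∀ x, 0 ≤ f x) {a b : ℝ} (hab : a ≤ b)
    (hc : ConvexOn ℝ (Icc a b) f) :
    ∫⁻ t in Icc a b, ENNReal.ofReal (f t) ≤ ENNReal.ofReal ((b - a) / 2 * (f a + f b)) := by
  rcases hab.eq_or_lt with rfl | hlt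
  · simp
  have hint : IntegrableOn f (Icc a b) := hf.continuousOn.integrableOn_Icc
  rw [← ofReal_integral_eq_lintegral_ofReal hint (ae_of_all _ h0)]
  refine ENNReal.ofReal_le_ofReal ?_
  rw [integral_Icc_eq_integral_Ioc, ← intervalIntegral.integral_of_le hab]
  have hpos : 0 < b - a := sub_pos.2 hlt
  set k : ℝ := (f b - f a) / (b - a) with hk
  have hchord : ∀ t ∈ Icc a b, f t ≤ (f a - k * a) + k * t := by
    intro t ht
    have hs0 : 0 ≤ (t - a) / (b - a) := div_nonneg (sub_nonneg.2 ht.1) hpos.le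
    have hs1 : 0 ≤ 1 - (t - a) / (b - a) := by
      rw [sub_nonneg, div_le_one hpos]; linarith [ht.2]
    have h := hc.2 (left_mem_Icc.2 hab) (right_mem_Icc.2 hab) hs1 hs0 (by ring)
    have e : (1 - (t - a) / (b - a)) • a + ((t - a) / (b - a)) • b = t := by
      simp only [smul_eq_mul]; field_simp; ring
    rw [e] at h
    refine h.trans (le_of_eq ?_)
    simp only [smul_eq_mul, hk]; field_simp; ring
  calc ∫ t in a..b, f t ≤ ∫ t in a..b, ((f a - k * a) + k * t) := by
        refine intervalIntegral.integral_mono_on hab (hf.intervalIntegrable _ _) ?_ hchord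
        exact Continuous.intervalIntegrable (by fun_prop) _ _
    _ = (b - a) / 2 * (f a + f b) := by
        rw [intervalIntegral.integral_add (by simp) (Continuous.intervalIntegrable (by fun_prop) _ _),
          intervalIntegral.integral_const, intervalIntegral.integral_const_mul, integral_id]
        simp only [smul_eq_mul, hk]; field_simp; ring

/-- Fubini -/
lemma fub {m : ℕ} {F : E (m + 1) → ℝ≥0∞} (hF : Measurable F) :
    ∫⁻ x, F x = ∫⁻ z : E m, ∫⁻ t : ℝ, F (cs t z) := by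
  have e1 := volume_preserving_piFinSuccAbove (fun _ : Fin (m + 1) => ℝ) 0
  have e2 := PiLp.volume_preserving_ofLp (Fin (m + 1))
  have e := e1.comp e2
  set G : ℝ × (Fin m → ℝ) → ℝ≥0∞ := fun p => F (cs p.1 (WithLp.toLp 2 p.2)) with hG
  have hGm : Measurable G := by
    refine hF.comp ?_
    have : Continuous fun p : ℝ × (Fin m → ℝ) => cs p.1 (WithLp.toLp 2 p.2 : E m) :=
      cont_cs.comp (continuous_fst.prodMk ((PiLp.continuous_toLp 2 _).comp continuous_snd))
    exact this.measurable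
  have h1 := e.lintegral_comp hGm
  have h2 : ∀ x : E (m + 1), G ((⇑(MeasurableEquiv.piFinSuccAbove (fun _ => ℝ) 0) ∘ WithLp.ofLp) x) = F x := by
    intro x
    change F (cs (x 0) (pr x)) = F x
    rw [cs_pr]
  have h3 : ∫⁻ x, F x = ∫⁻ p, G p := by
    rw [← h1]
    exact lintegral_congr fun x => (h2 x).symm
  rw [h3, Measure.volume_eq_prod, lintegral_prod_symm' _ hGm]
  have h4 := (PiLp.volume_preserving_ofLp (Fin m)).lintegral_comp
    (f := fun w : Fin m → ℝ => ∫⁻ t : ℝ, G (t, w)) hGm.lintegral_prod_left'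
  rw [← h4]

/-- hyperplanes are null sets -/
lemma null_eq {m : ℕ} (α : Fin m → ℝ) (β : ℝ) (h : ¬ (α = 0 ∧ β = 0)) :
    volume {z : E m | ∑ i, α i * z i = β} = 0 := by
  by_cases hα : α = 0
  · have hβ : β ≠ 0 := fun h' => h ⟨hα, h'⟩
    have : {z : E m | ∑ i, α i * z i = β} = ∅ := by
      ext z
      simp [hα, Ne.symm hβ]
    rw [this, measure_empty]
  let L : E m →ₗ[ℝ] ℝ :=
    { toFun := fun z => ∑ i, α i * z i
      map_add' := by
        intro x y
        rw [← Finset.sum_add_distrib]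
        refine Finset.sum_congr rfl fun i _ => ?_
        simp [mul_add]
      map_smul' := by
        intro c x
        rw [RingHom.id_apply, smul_eq_mul, Finset.mul_sum]
        refine Finset.sum_congr rfl fun i _ => ?_
        simp [mul_left_comm] }
  rcases eq_empty_or_nonempty {z : E m | ∑ i, α i * z i = β} with h1 | ⟨z0, hz0⟩
  · rw [h1, measure_empty]
  have hker : LinearMap.ker L ≠ ⊤ := by
    intro htop
    apply hα
    have h2 : (WithLp.toLp 2 α : E m) ∈ LinearMap.ker L := by rw [htop]; trivial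
    have h3 : ∑ i, α i * α i = 0 := h2
    have h4 := (Finset.sum_eq_zero_iff_of_nonneg (fun i _ => mul_self_nonneg (α i))).1 h3
    ext i
    exact mul_self_eq_zero.1 (h4 i (Finset.mem_univ i))
  refine measure_mono_null ?_ (Measure.addHaar_affineSubspace volume
    (AffineSubspace.mk' z0 (LinearMap.ker L)) ?_)
  · intro z hz
    change z ∈ AffineSubspace.mk' z0 (LinearMap.ker L)
    rw [AffineSubspace.mem_mk', LinearMap.mem_ker, vsub_eq_sub, map_sub, sub_eq_zero]
    exact (show L z = β from hz).trans (show L z0 = β from hz0).symm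
  · intro htop
    apply hker
    rw [← AffineSubspace.direction_mk' z0 (LinearMap.ker L), htop, AffineSubspace.direction_top]

/-! ### the facets as graphs -/

lemma isClosed_Poly {n N : ℕ} (ν : Fin N → E n) (b : Fin N → ℝ) : IsClosed (Poly ν b) := by
  have : Poly ν b = ⋂ i, {x | inner ℝ (ν i) x ≤ b i} := by
    ext; simp [Pool.Agent.TH581.HH.Poly]
  rw [this]
  exact isClosed_iInter fun i => isClosed_le (by fun_prop) continuous_const

lemma convex_Poly {n N : ℕ} (ν : Fin N → E n) (b : Fin N → ℝ) : Convex ℝ (Poly ν b) := by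
  intro x hx y hy s t hs ht hst i
  rw [inner_add_right, inner_smul_right, inner_smul_right]
  have h1 := mul_le_mul_of_nonneg_left (hx i) hs
  have h2 := mul_le_mul_of_nonneg_left (hy i) ht
  have h3 : s * b i + t * b i = b i := by rw [← add_mul, hst, one_mul]
  linarith

/-- the base of the `i`-th facet -/
def Sb {m N : ℕ} (ν : Fin N → E (m + 1)) (b : Fin N → ℝ) (i : Fin N) : Set (E m) :=
  {z | hg (ν i) (b i) z ∈ Poly ν b}

lemma meas_Sb {m N : ℕ} (ν : Fin N → E (m + 1)) (b : Fin N → ℝ) (i : Fin N) :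
    MeasurableSet (Sb ν b i) :=
  ((isClosed_Poly ν b).preimage (cont_hg _ _)).measurableSet

lemma inner_hg {m : ℕ} (ν : E (m + 1)) (b : ℝ) (h : ν 0 ≠ 0) (z : E m) :
    inner ℝ ν (hg ν b z) = b := by
  rw [hg_eq, inner_cs, ht]
  field_simp
  ring

lemma eq_ht {m : ℕ} {ν : E (m + 1)} {b : ℝ} (h : ν 0 ≠ 0) {t : ℝ} {z : E m}
    (hi : inner ℝ ν (cs t z) = b) : t = ht ν b z := by
  rw [inner_cs] at hi
  rw [ht, eq_div_iff h]
  linarith

lemma Fac_eq {m N : ℕ} (ν : Fin N → E (m + 1)) (b : Fin N → ℝ) (i : Fin N) (h : ν i 0 ≠ 0) :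
    Fac ν b i = hg (ν i) (b i) '' Sb ν b i := by
  ext x
  constructor
  · rintro ⟨hx, hi⟩
    have h1 : x 0 = ht (ν i) (b i) (pr x) := eq_ht h (by rw [cs_pr]; exact hi)
    have h2 : hg (ν i) (b i) (pr x) = x := by rw [hg_eq, ← h1, cs_pr]
    exact ⟨pr x, by rw [Sb, mem_ofPred_eq, h2]; exact hx, h2⟩
  · rintro ⟨z, hz, rfl⟩
    exact ⟨hz, inner_hg _ _ h z⟩

lemma Sb_sub {m N : ℕ} (ν : Fin N → E (m + 1)) (b : Fin N → ℝ) (i : Fin N) :
    Sb ν b i ⊆ pr '' Poly ν b := by
  intro z hz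
  exact ⟨hg (ν i) (b i) z, hz, rfl⟩

lemma ae_disj {m N : ℕ} {ν : Fin N → E (m + 1)} {b : Fin N → ℝ} (hG : Good ν b) {i j : Fin N}
    (hij : i ≠ j) (hp : 0 < ν i 0 * ν j 0) :
    AEDisjoint volume (Sb ν b i) (Sb ν b j) := by
  have hi : ν i 0 ≠ 0 := left_ne_zero_of_mul hp.ne'
  have hj : ν j 0 ≠ 0 := right_ne_zero_of_mul hp.ne'
  have key : Sb ν b i ∩ Sb ν b j ⊆ {z : E m | ∑ k, (ν i k.succ / ν i 0 - ν j k.succ / ν j 0) * z k
      = b i / ν i 0 - b j / ν j 0} := by
    rintro z ⟨h1, h2⟩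
    have h3 := h1 j
    have h4 := h2 i
    rw [hg_eq, inner_cs] at h3 h4
    have h5 : ν j 0 * ht (ν j) (b j) z + ∑ k, ν j k.succ * z k = b j := by
      rw [← inner_cs, ← hg_eq, inner_hg _ _ hj]
    have h6 : ν i 0 * ht (ν i) (b i) z + ∑ k, ν i k.succ * z k = b i := by
      rw [← inner_cs, ← hg_eq, inner_hg _ _ hi]
    have h7 : ν j 0 * (ht (ν i) (b i) z - ht (ν j) (b j) z) ≤ 0 := by linarith
    have h8 : ν i 0 * (ht (ν j) (b j) z - ht (ν i) (b i) z) ≤ 0 := by linarith
    have h9 : ht (ν i) (b i) z = ht (ν j) (b j) z := by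
      by_contra hne
      have hd : 0 < (ht (ν i) (b i) z - ht (ν j) (b j) z) ^ 2 := by
        have := sub_ne_zero.2 hne
        positivity
      have h10 := mul_nonneg_of_nonpos_of_nonpos h7 h8
      nlinarith [mul_pos hp hd]
    rw [ht, ht, sub_div, sub_div, Finset.sum_div, Finset.sum_div] at h9
    simp only [mem_ofPred_eq, sub_mul, Finset.sum_sub_distrib]
    have e1 : ∀ (l : Fin N), ∑ k : Fin m, ν l k.succ / ν l 0 * z k
        = ∑ k : Fin m, ν l k.succ * z k / ν l 0 :=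
      fun l => Finset.sum_congr rfl fun k _ => by ring
    rw [e1, e1]
    linarith
  refine measure_mono_null key (null_eq _ _ ?_)
  rintro ⟨hα, hβ⟩
  have hc : ∀ k : Fin (m + 1), ν i k * ν j 0 = ν j k * ν i 0 := by
    intro k
    refine Fin.cases ?_ (fun k => ?_) k
    · ring
    · have h1 := congrFun hα k
      simp only [Pi.zero_apply, sub_eq_zero] at h1
      rw [div_eq_div_iff hi hj] at h1
      exact h1
  have hvec : (ν j 0) • ν i = (ν i 0) • ν j := by
    ext k
    simp only [PiLp.smul_apply, smul_eq_mul]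
    linarith [hc k]
  have hn := congrArg norm hvec
  rw [norm_smul, norm_smul, hG.unit, hG.unit, mul_one, mul_one, Real.norm_eq_abs,
    Real.norm_eq_abs] at hn
  have hh : ν i 0 = ν j 0 := by
    rcases abs_eq_abs.1 hn with h | h
    · exact h.symm
    · exfalso
      rw [h] at hp
      nlinarith [mul_self_nonneg (ν i 0)]
  have hν : ν i = ν j := by
    rw [hh] at hvec
    exact smul_right_injective _ hj hvec
  have hb : b i = b j := by
    rw [sub_eq_zero, hh] at hβ
    exact (div_left_inj' hj).1 hβ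
  exact hij (hG.inj i j hν hb)

lemma sum_le {m N : ℕ} {ν : Fin N → E (m + 1)} {b : Fin N → ℝ} (hG : Good ν b)
    (A : Finset (Fin N)) (hA : ∀ i ∈ A, ∀ j ∈ A, 0 < ν i 0 * ν j 0) :
    ∑ i ∈ A, volume (Sb ν b i) ≤ volume (pr '' Poly ν b) := by
  rw [← measure_biUnion_finset₀ (μ := volume) (s := A) (f := Sb ν b)]
  · exact measure_mono (iUnion₂_subset fun i _ => Sb_sub ν b i)
  · intro i hi j hj hij
    exact ae_disj hG hij (hA i hi j hj)
  · intro i _
    exact (meas_Sb ν b i).nullMeasurableSet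

/-! ### the fibres -/

lemma exists_face {m N : ℕ} {ν : Fin N → E (m + 1)} {b : Fin N → ℝ} {z : E m} {t₁ s : ℝ}
    (h1 : cs t₁ z ∈ Poly ν b) (h2 : ∀ ε : ℝ, 0 < ε → cs (t₁ + s * ε) z ∉ Poly ν b) :
    ∃ i, 0 < s * ν i 0 ∧ inner ℝ (ν i) (cs t₁ z) = b i := by
  by_contra hcon
  push Not at hcon
  have hev : ∀ᶠ ε in 𝓝[>] (0 : ℝ), ∀ i, inner ℝ (ν i) (cs (t₁ + s * ε) z) ≤ b i := by
    rw [Filter.eventually_all]
    intro i
    rcases lt_or_ge 0 (s * ν i 0) with h | h
    · have hlt : inner ℝ (ν i) (cs t₁ z) < b i := lt_of_le_of_ne (h1 i) (hcon i h)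
      have hc : Continuous fun ε : ℝ => inner ℝ (ν i) (cs (t₁ + s * ε) z) := by
        simp only [inner_cs]
        fun_prop
      have h0 : inner ℝ (ν i) (cs (t₁ + s * 0) z) < b i := by simpa using hlt
      have := (hc.tendsto 0).eventually (gt_mem_nhds h0)
      exact (this.filter_mono nhdsWithin_le_nhds).mono fun ε hε => le_of_lt hε
    · filter_upwards [self_mem_nhdsWithin] with ε hε
      have hε' : (0 : ℝ) < ε := hε
      have h3 := h1 i
      rw [inner_cs] at h3 ⊢
      nlinarith [mul_nonneg hε'.le (neg_nonneg.2 h)]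
  obtain ⟨ε, hε, hε0⟩ := (hev.and self_mem_nhdsWithin).exists
  exact h2 ε hε0 hε

lemma fibre {m N : ℕ} {ν : Fin N → E (m + 1)} {b : Fin N → ℝ} (hG : Good ν b) (z : E m)
    (hne : ∃ t, cs t z ∈ Poly ν b) :
    ∃ t₀ t₁ : ℝ, t₀ ≤ t₁ ∧ (∀ t, cs t z ∈ Poly ν b ↔ t ∈ Icc t₀ t₁) ∧
      (∃ i, 0 < ν i 0 ∧ inner ℝ (ν i) (cs t₁ z) = b i) ∧
      (∃ i, ν i 0 < 0 ∧ inner ℝ (ν i) (cs t₀ z) = b i) := by
  have hcc : Continuous fun t : ℝ => cs t z := cont_cs.comp (continuous_id.prodMk continuous_const)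
  set T : Set ℝ := {t | cs t z ∈ Poly ν b} with hT
  have hTc : IsCompact T := by
    have hK : IsCompact (Poly ν b ∩ pr ⁻¹' {z}) :=
      hG.cpt.inter_right (isClosed_singleton.preimage (lip_pr (m := m)).continuous)
    have : T = (fun x : E (m + 1) => x 0) '' (Poly ν b ∩ pr ⁻¹' {z}) := by
      ext t
      constructor
      · intro h
        exact ⟨cs t z, ⟨h, rfl⟩, rfl⟩
      · rintro ⟨x, ⟨hx, hxz⟩, rfl⟩
        have hz : pr x = z := hxz
        change cs (x 0) z ∈ Poly ν b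
        rw [← hz, cs_pr]
        exact hx
    rw [this]
    exact hK.image (by fun_prop)
  have hTn : T.Nonempty := hne
  obtain ⟨t₁, ht₁, hmax⟩ := hTc.exists_isGreatest hTn
  obtain ⟨t₀, ht₀, hmin⟩ := hTc.exists_isLeast hTn
  have hle : t₀ ≤ t₁ := hmin ht₁
  refine ⟨t₀, t₁, hle, fun t => ⟨fun h => ⟨hmin h, hmax h⟩, fun h => ?_⟩, ?_, ?_⟩
  · intro i
    have h1 := ht₀ i
    have h2 := ht₁ i
    rw [inner_cs] at h1 h2 ⊢
    rcases le_or_gt 0 (ν i 0) with h3 | h3
    · nlinarith [mul_le_mul_of_nonneg_left h.2 h3]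
    · nlinarith [mul_le_mul_of_nonpos_left h.1 h3.le]
  · obtain ⟨i, hi, hi2⟩ := exists_face (s := 1) ht₁ (fun ε hε hmem => by
      have := hmax (show t₁ + 1 * ε ∈ T from hmem)
      linarith)
    exact ⟨i, by linarith, hi2⟩
  · obtain ⟨i, hi, hi2⟩ := exists_face (s := -1) ht₀ (fun ε hε hmem => by
      have := hmin (show t₀ + -1 * ε ∈ T from hmem)
      linarith)
    exact ⟨i, by linarith, hi2⟩

/-- the sum over the facets over `z` -/
def GG {m N : ℕ} (ν : Fin N → E (m + 1)) (b : Fin N → ℝ) (f : E (m + 1) → ℝ) (i : Fin N)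
    (z : E m) : ℝ≥0∞ :=
  if ν i 0 = 0 then 0 else
    (Sb ν b i).indicator (fun z => ENNReal.ofReal (f (hg (ν i) (b i) z))) z

lemma meas_GG {m N : ℕ} (ν : Fin N → E (m + 1)) (b : Fin N → ℝ) {f : E (m + 1) → ℝ}
    (hf : Continuous f) (i : Fin N) : Measurable (GG ν b f i) := by
  unfold GG
  by_cases h : ν i 0 = 0
  · simp only [h, if_true]
    exact measurable_const
  · simp only [h, if_false]
    exact (ENNReal.measurable_ofReal.comp (hf.comp (cont_hg _ _)).measurable).indicator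
      (meas_Sb ν b i)

lemma GG_face {m N : ℕ} {ν : Fin N → E (m + 1)} {b : Fin N → ℝ} {f : E (m + 1) → ℝ} {i : Fin N}
    {z : E m} {t : ℝ} (h0 : ν i 0 ≠ 0) (ht' : cs t z ∈ Poly ν b)
    (hi : inner ℝ (ν i) (cs t z) = b i) : GG ν b f i z = ENNReal.ofReal (f (cs t z)) := by
  have h1 : t = ht (ν i) (b i) z := eq_ht h0 hi
  have h2 : hg (ν i) (b i) z = cs t z := by rw [hg_eq, ← h1]
  unfold GG
  rw [if_neg h0, indicator_of_mem, h2]
  rw [Sb, mem_ofPred_eq, h2]
  exact ht'

lemma ptwise {m N : ℕ} {ν : Fin N → E (m + 1)} {b : Fin N → ℝ} (hC : S_CONE) (hG : Good ν b)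
    {f : E (m + 1) → ℝ} (hf : Continuous f) (hf0 : ∀ x, 0 ≤ f x)
    (hfc : ConvexOn ℝ (Poly ν b) f) (z : E m) :
    (2 * volume (pr '' Poly ν b)) *
        ∫⁻ t : ℝ, (Poly ν b).indicator (fun x => ENNReal.ofReal (f x)) (cs t z) ≤
      (m + 1 : ℕ) * volume (Poly ν b) * ∑ i, GG ν b f i z := by
  by_cases hne : ∃ t, cs t z ∈ Poly ν b
  · obtain ⟨t₀, t₁, hle, hT, ⟨i, hi, hi2⟩, ⟨j, hj, hj2⟩⟩ := fibre hG z hne
    have e1 : ∫⁻ t : ℝ, (Poly ν b).indicator (fun x => ENNReal.ofReal (f x)) (cs t z) =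
        ∫⁻ t in Icc t₀ t₁, ENNReal.ofReal (f (cs t z)) := by
      rw [← lintegral_indicator measurableSet_Icc]
      refine lintegral_congr fun t => ?_
      by_cases ht : t ∈ Icc t₀ t₁
      · rw [indicator_of_mem ht, indicator_of_mem ((hT t).2 ht)]
      · rw [indicator_of_notMem ht, indicator_of_notMem (fun h => ht ((hT t).1 h))]
    have hcc : Continuous fun t : ℝ => cs t z :=
      cont_cs.comp (continuous_id.prodMk continuous_const)
    have hconv : ConvexOn ℝ (Icc t₀ t₁) (fun t => f (cs t z)) := by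
      refine ⟨convex_Icc _ _, fun x hx y hy s r hs hr hsr => ?_⟩
      have h1 := hfc.2 ((hT x).2 hx) ((hT y).2 hy) hs hr hsr
      have h2 : s • cs x z + r • cs y z = cs (s • x + r • y) z := by
        ext k
        refine Fin.cases ?_ (fun k => ?_) k
        · rfl
        · change s * z k + r * z k = z k
          rw [← add_mul, hsr, one_mul]
      rw [h2] at h1
      exact h1
    have e2 := hh1 (f := fun t => f (cs t z)) (hf.comp hcc) (fun t => hf0 _) hle hconv
    have e3 := hC m (Poly ν b) hG.cpt (convex_Poly ν b) z t₀ (t₁ - t₀) (sub_nonneg.2 hle)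
      (fun t ht => (hT t).2 ⟨ht.1, by linarith [ht.2]⟩)
    have hij : i ≠ j := by
      rintro rfl
      exact lt_asymm hi hj
    have e4 : ENNReal.ofReal (f (cs t₀ z)) + ENNReal.ofReal (f (cs t₁ z)) ≤
        ∑ i, GG ν b f i z := by
      rw [← GG_face (f := f) hj.ne ((hT t₀).2 (left_mem_Icc.2 hle)) hj2,
        ← GG_face (f := f) hi.ne' ((hT t₁).2 (right_mem_Icc.2 hle)) hi2,
        ← Finset.sum_pair (f := fun k => GG ν b f k z) hij.symm]
      exact Finset.sum_le_sum_of_subset (Finset.subset_univ _)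
    have e5 : (2 : ℝ≥0∞) * ENNReal.ofReal ((t₁ - t₀) / 2 * (f (cs t₀ z) + f (cs t₁ z))) =
        ENNReal.ofReal (t₁ - t₀) * (ENNReal.ofReal (f (cs t₀ z)) + ENNReal.ofReal (f (cs t₁ z))) := by
      rw [← ENNReal.ofReal_add (hf0 _) (hf0 _), ← ENNReal.ofReal_mul (sub_nonneg.2 hle),
        show (2 : ℝ≥0∞) = ENNReal.ofReal 2 by simp, ← ENNReal.ofReal_mul (by norm_num)]
      congr 1
      ring
    calc (2 * volume (pr '' Poly ν b)) *
          ∫⁻ t : ℝ, (Poly ν b).indicator (fun x => ENNReal.ofReal (f x)) (cs t z)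
        ≤ (2 * volume (pr '' Poly ν b)) *
            ENNReal.ofReal ((t₁ - t₀) / 2 * (f (cs t₀ z) + f (cs t₁ z))) := by
          rw [e1]
          gcongr
      _ = (volume (pr '' Poly ν b) * ENNReal.ofReal (t₁ - t₀)) *
            (ENNReal.ofReal (f (cs t₀ z)) + ENNReal.ofReal (f (cs t₁ z))) := by
          rw [mul_comm (2 : ℝ≥0∞), mul_assoc, e5, mul_assoc]
      _ ≤ _ := mul_le_mul' e3 e4
  · have e1 : ∫⁻ t : ℝ, (Poly ν b).indicator (fun x => ENNReal.ofReal (f x)) (cs t z) = 0 := by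
      rw [← lintegral_zero (μ := (volume : Measure ℝ))]
      refine lintegral_congr fun t => ?_
      rw [indicator_of_notMem]
      exact fun h => hne ⟨t, h⟩
    rw [e1, mul_zero]
    exact bot_le

theorem t_star (hF : S_FAC) (hC : S_CONE) : S_STAR := by
  intro m N ν b hG f hf hf0 hfc
  set P := Poly ν b with hP
  have hPm : MeasurableSet P := (isClosed_Poly ν b).measurableSet
  set F : E (m + 1) → ℝ≥0∞ := P.indicator (fun x => ENNReal.ofReal (f x)) with hFdef
  have hfm : Measurable fun x => ENNReal.ofReal (f x) := ENNReal.measurable_ofReal.comp hf.measurable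
  have hFm : Measurable F := hfm.indicator hPm
  -- the surface terms
  have hsurf : ∀ i, ENNReal.ofReal |ν i 0| * (μHE[m] : Measure (E (m + 1))) (Fac ν b i) =
      if ν i 0 = 0 then 0 else volume (Sb ν b i) := by
    intro i
    by_cases h : ν i 0 = 0
    · simp [h]
    · rw [if_neg h, Fac_eq ν b i h]
      have h1 := hF m (ν i) (b i) (hG.unit i) h (Sb ν b i) (meas_Sb ν b i) (fun _ => 1)
        measurable_const
      simpa using h1
  have hint : ∀ i, ENNReal.ofReal |ν i 0| *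
      ∫⁻ x in Fac ν b i, ENNReal.ofReal (f x) ∂(μHE[m] : Measure (E (m + 1))) =
      ∫⁻ z, GG ν b f i z := by
    intro i
    by_cases h : ν i 0 = 0
    · simp [h, GG]
    · rw [Fac_eq ν b i h, hF m (ν i) (b i) (hG.unit i) h (Sb ν b i) (meas_Sb ν b i) _ hfm,
        ← lintegral_indicator (meas_Sb ν b i)]
      refine lintegral_congr fun z => ?_
      rw [GG, if_neg h]
  have hsum : ∑ i, ENNReal.ofReal |ν i 0| * (μHE[m] : Measure (E (m + 1))) (Fac ν b i) ≤
      2 * volume (pr '' P) := by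
    simp_rw [hsurf]
    have hpos := sum_le hG (Finset.univ.filter fun i => 0 < ν i 0) (by
      intro i hi j hj
      exact mul_pos (Finset.mem_filter.1 hi).2 (Finset.mem_filter.1 hj).2)
    have hneg := sum_le hG (Finset.univ.filter fun i => ν i 0 < 0) (by
      intro i hi j hj
      exact mul_pos_of_neg_of_neg (Finset.mem_filter.1 hi).2 (Finset.mem_filter.1 hj).2)
    rw [Finset.sum_filter] at hpos hneg
    refine le_trans (le_of_eq ?_) ((add_le_add hpos hneg).trans (le_of_eq (two_mul _).symm))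
    rw [← Finset.sum_add_distrib]
    refine Finset.sum_congr rfl fun i _ => ?_
    rcases lt_trichotomy (ν i 0) 0 with h | h | h
    · simp [h, h.ne, h.le.not_gt]
    · simp [h]
    · simp [h, h.ne', h.le.not_gt]
  have hlin : ∫⁻ x in P, ENNReal.ofReal (f x) = ∫⁻ z : E m, ∫⁻ t : ℝ, F (cs t z) := by
    rw [← fub hFm, hFdef, lintegral_indicator hPm]
  have hfin : 2 * volume (pr '' P) ≠ ⊤ := by
    refine ENNReal.mul_ne_top (by simp) ?_
    exact (hG.cpt.image (lip_pr (m := m)).continuous).measure_lt_top.ne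
  have hfin2 : ((m + 1 : ℕ) : ℝ≥0∞) * volume P ≠ ⊤ :=
    ENNReal.mul_ne_top (ENNReal.natCast_ne_top _) hG.cpt.measure_lt_top.ne
  calc (∑ i, ENNReal.ofReal |ν i 0| * (μHE[m] : Measure (E (m + 1))) (Fac ν b i)) *
        ∫⁻ x in P, ENNReal.ofReal (f x)
      ≤ (2 * volume (pr '' P)) * ∫⁻ z : E m, ∫⁻ t : ℝ, F (cs t z) := by
        rw [hlin]
        gcongr
    _ = ∫⁻ z : E m, (2 * volume (pr '' P)) * ∫⁻ t : ℝ, F (cs t z) :=
        (lintegral_const_mul' _ _ hfin).symm
    _ ≤ ∫⁻ z : E m, ((m + 1 : ℕ) : ℝ≥0∞) * volume P * ∑ i, GG ν b f i z :=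
        lintegral_mono fun z => ptwise hC hG hf hf0 hfc z
    _ = ((m + 1 : ℕ) : ℝ≥0∞) * volume P * ∫⁻ z : E m, ∑ i, GG ν b f i z :=
        lintegral_const_mul' _ _ hfin2
    _ = _ := by
        rw [lintegral_finsetSum _ fun i _ => meas_GG ν b hf i]
        simp_rw [hint]

end Pool.Agent.TH531.HH
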